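import Pool.Agent.Y920.AD.Stm

set_option autoImplicit false

/-! Project AD (helper920), part FAC2: labellings of the hyperbolic plane.
Adaptation of `Pool.Agent.H983R3.Main` and `Pool.Agent.H983R3.Final`. -/

namespace Pool.Agent.Y970.AD

open Pool.Agent.H983R3 Pool.Agent.Y920.AD

/-- the coordinate -/
def cz (v : EuclideanSpace ℝ (Fin (2 - 1))) : ℝ := v (⟨0, by norm_num⟩ : Fin (2 - 1))

lemma norm_eq_cz (v : EuclideanSpace ℝ (Fin (2 - 1))) : ‖v‖ = |cz v| := by
  have h : ‖v‖ ^ 2 = (cz v) ^ 2 := by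
    rw [EuclideanSpace.norm_sq_eq]
    have h := Fin.sum_univ_one (fun i : Fin 1 => ‖v i‖ ^ 2)
    simp only [Real.norm_eq_abs, sq_abs] at h ⊢
    exact h
  rw [← sq_abs (cz v)] at h
  exact (sq_eq_sq₀ (norm_nonneg _) (abs_nonneg _)).1 h

lemma cz_sub (v w : EuclideanSpace ℝ (Fin (2 - 1))) : cz (v - w) = cz v - cz w := rfl

/-- the vector with coordinate `c` -/
noncomputable def vz (c : ℝ) : EuclideanSpace ℝ (Fin (2 - 1)) := WithLp.toLp 2 (fun _ => c)

lemma cz_vz (c : ℝ) : cz (vz c) = c := rfl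

/-- scaled horizontal position -/
noncomputable def pl (W : ℝ) (p : Hyp 2) : ℝ := cz p.x / W

lemma pl_close {W : ℝ} (hW : 0 < W) {p q : Hyp 2} {t : ℝ} (ht : 0 ≤ t) (h : hdist p q ≤ t) :
    |pl W q - pl W p| ≤ Real.exp t * p.h / W := by
  have h1 := horiz_le ht h
  rw [norm_sub_rev, norm_eq_cz, cz_sub] at h1
  unfold pl
  rw [← sub_div, abs_div, abs_of_pos hW]
  exact div_le_div_of_nonneg_right h1 hW.le

theorem multiplicity (h1 : S_MULT1) (P : Par) {r W : ℝ} (hr : 0 ≤ r)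
    (hl : Real.exp (2 * r) ≤ P.l) (hW : 2 * P.l ^ 3 < W) (z0 : Hyp 2) :
    ∃ s : Finset (ℤ × ℤ), s.card ≤ 2 ∧
      ∀ z : Hyp 2, hdist z0 z ≤ r → ell1 P (P.lev z.h) (pl W z) ∈ s := by
  have hWpos : 0 < W := by have := pow_pos P.l_pos 3; linarith
  have hz0 := z0.pos
  have he := Real.exp_pos r
  have hh : 0 < Real.exp r * z0.h := by positivity
  set n := P.lev (Real.exp r * z0.h) with hn
  obtain ⟨s1, s2⟩ := P.lev_spec hh
  rw [← hn] at s1 s2
  obtain ⟨v1, hv1, hv1'⟩ := P.nearest (n + 3) (pl W z0)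
  obtain ⟨s, hs, hs2⟩ := h1 P n v1 hv1
  refine ⟨s, hs, ?_⟩
  intro z hz
  have u3 := P.u_pos (n + 3)
  have hclose := pl_close hWpos hr hz
  have hsmall : Real.exp r * z0.h / W < P.u (n + 3) / 2 := by
    rw [div_lt_iff₀ hWpos]
    have h1 : P.l ^ 3 * P.u (n + 3) = P.u n := by
      rw [P.u_shift]; congr 1; push_cast; ring
    calc Real.exp r * z0.h ≤ P.u n := s2
      _ = P.l ^ 3 * P.u (n + 3) := h1.symm
      _ = P.u (n + 3) / 2 * (2 * P.l ^ 3) := by ring
      _ < P.u (n + 3) / 2 * W := mul_lt_mul_of_pos_left hW (by linarith)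
  have hcl : |pl W z - v1| < P.u (n + 3) := by
    have := abs_sub_le (pl W z) (pl W z0) v1
    linarith
  have hzp := z.pos
  have hlev1 : n ≤ P.lev z.h := by
    apply P.le_lev hzp
    exact (height_le hr hz).trans s2
  have hlev2 : P.lev z.h < n + 2 := by
    apply P.lev_lt hzp
    have h1 := height_ge hr hz
    have h2 : P.u (n + 1) = P.l * P.u (n + 2) := by
      have := P.u_succ (n + 1)
      rwa [show n + 1 + 1 = n + 2 by ring] at this
    have h3 : Real.exp (2 * r) = Real.exp r * Real.exp r := by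
      rw [← Real.exp_add]; congr 1; ring
    have h4 : P.l * P.u (n + 2) < P.l * z.h := by
      calc P.l * P.u (n + 2) = P.u (n + 1) := h2.symm
        _ < Real.exp r * z0.h := s1
        _ ≤ Real.exp r * (Real.exp r * z.h) := mul_le_mul_of_nonneg_left h1 he.le
        _ = Real.exp (2 * r) * z.h := by rw [h3]; ring
        _ ≤ P.l * z.h := mul_le_mul_of_nonneg_right hl hzp.le
    exact lt_of_mul_lt_mul_left h4 P.l_pos.le
  have hboth := hs2 (pl W z) hcl
  rcases (show P.lev z.h = n ∨ P.lev z.h = n + 1 by omega) with h | h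
  · rw [h]; exact hboth.1
  · rw [h]; exact hboth.2

/-- AD-FAC2 -/
theorem t_FAC2 : S_FAC2 := by
  classical
  intro hT h1 h2 P r hr hP
  have hl := P.l_pos
  have hl9 := P.nine_le_l
  set W : ℝ := 2 * P.l ^ 3 + 1 with hWd
  have hW1 : 1 ≤ W := by have := pow_pos hl 3; linarith
  have hW0 : 0 < W := by linarith
  obtain ⟨K, hK⟩ := h2 P
  refine ⟨ℤ × ℤ, fun z => ell1 P (P.lev z.h) (pl W z), 9 * K, 3 * W * P.l + P.l, ?_, ?_⟩
  · intro z0
    obtain ⟨s, hs, hs2⟩ := multiplicity h1 P hr hP (show 2 * P.l ^ 3 < W by linarith) z0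
    exact ⟨s, hs, hs2⟩
  intro L x T n
  have hexpr : Real.exp r ≤ P.l := by
    refine le_trans (Real.exp_le_exp.mpr ?_) hP
    linarith
  have hexpT : Real.exp (T : ℝ) ≤ P.l ^ T := by
    calc Real.exp (T : ℝ) = (Real.exp 1) ^ T := by rw [← Real.exp_nat_mul]; simp
      _ ≤ P.l ^ T := by
        apply pow_le_pow_left₀ (Real.exp_pos _).le
        have := Real.exp_one_lt_d9
        linarith
  have hexp : Real.exp ((T : ℝ) + r) ≤ P.l ^ (T + 1) := by
    rw [Real.exp_add, pow_succ]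
    exact mul_le_mul hexpT hexpr (Real.exp_pos _).le (pow_nonneg hl.le _)
  have hTr : 0 ≤ (T : ℝ) + r := by positivity
  set n0 := P.lev x.h with hn0
  obtain ⟨hx1, hx2⟩ := P.lev_spec x.pos
  rw [← hn0] at hx1 hx2
  set m : ℤ := n0 - (T + 1 : ℕ) with hm
  have hum : Real.exp ((T : ℝ) + r) * x.h ≤ P.u m := by
    calc Real.exp ((T : ℝ) + r) * x.h ≤ P.l ^ (T + 1) * P.u n0 :=
          mul_le_mul hexp hx2 x.pos.le (pow_nonneg hl.le _)
      _ = P.u m := by rw [P.u_shift]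
  -- the centers at level `k`
  have hC : ∀ k : ℤ, ∃ C : Finset ℝ, C.card ≤ 3 * K * (T + 1) ∧
      (m ≤ k → k ≤ n0 + T + 1 → ∀ y : ℝ, |y - pl W x| ≤ P.u m → ell1 P k y = L →
        ∃ c ∈ C, |y - c| < 3 * P.u k) := by
    intro k
    by_cases hk : m ≤ k ∧ k ≤ n0 + T + 1
    · obtain ⟨C, hC1, hC2⟩ := hK L m k hk.1 (pl W x)
      refine ⟨C, hC1.trans ?_, fun _ _ => hC2⟩
      have h3 : (k - m).toNat + 1 ≤ 3 * (T + 1) := by
        have := hk.1
        have := hk.2
        omega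
      calc K * ((k - m).toNat + 1) ≤ K * (3 * (T + 1)) := Nat.mul_le_mul_left _ h3
        _ = 3 * K * (T + 1) := by ring
    · exact ⟨∅, by simp, fun h3 h4 => absurd ⟨h3, h4⟩ hk⟩
  choose Cs hCs1 hCs2 using hC
  refine ⟨((Cs (n - 1) ∪ Cs n) ∪ Cs (n + 1)).image (fun c => vz (W * c)), ?_, ?_⟩
  · refine Finset.card_image_le.trans ((Finset.card_union_le _ _).trans ?_)
    have h3 := Finset.card_union_le (Cs (n - 1)) (Cs n)
    have h4 := hCs1 (n - 1)
    have h5 := hCs1 n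
    have h6 := hCs1 (n + 1)
    have h7 : 9 * K * (T + 1) = 3 * K * (T + 1) + 3 * K * (T + 1) + 3 * K * (T + 1) := by ring
    omega
  intro y z hzL hyz hxy hyn
  have hxz : hdist x z ≤ (T : ℝ) + r := (hT 2 x y z).trans (add_le_add hxy hyz)
  have hzy : hdist z y ≤ r := by rw [hdist_symm]; exact hyz
  obtain ⟨hy1, hy2⟩ := P.lev_spec y.pos
  rw [hyn] at hy1 hy2
  -- the level of `z`
  have hk1 : m ≤ P.lev z.h := P.le_lev z.pos ((height_le hTr hxz).trans hum)
  have hk2 : P.lev z.h ≤ n0 + T + 1 := by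
    have h3 := height_ge hTr hxz
    have h4 : P.u (n0 + 1 + (T + 1 : ℕ)) < z.h := by
      have h5 : P.l ^ (T + 1) * P.u (n0 + 1 + (T + 1 : ℕ)) < P.l ^ (T + 1) * z.h := by
        calc P.l ^ (T + 1) * P.u (n0 + 1 + (T + 1 : ℕ)) = P.u (n0 + 1) := by
              rw [P.u_shift]; congr 1; ring
          _ < x.h := hx1
          _ ≤ Real.exp ((T : ℝ) + r) * z.h := h3
          _ ≤ P.l ^ (T + 1) * z.h := mul_le_mul_of_nonneg_right hexp z.pos.le
      exact lt_of_mul_lt_mul_left h5 (pow_nonneg hl.le _)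
    have h6 := P.lev_lt z.pos h4
    push_cast at h6
    omega
  have hun1 : P.u (n - 1) = P.l * P.u n := by
    have := P.u_succ (n - 1)
    rwa [sub_add_cancel] at this
  have hk3 : n - 1 ≤ P.lev z.h := by
    apply P.le_lev z.pos
    rw [hun1]
    exact (height_le hr hyz).trans (mul_le_mul hexpr hy2 y.pos.le hl.le)
  have hk4 : P.lev z.h < n + 2 := by
    apply P.lev_lt z.pos
    have h3 : P.u (n + 1) = P.l * P.u (n + 2) := by
      have := P.u_succ (n + 1)
      rwa [show n + 1 + 1 = n + 2 by ring] at this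
    have h4 : P.l * P.u (n + 2) < P.l * z.h := by
      calc P.l * P.u (n + 2) = P.u (n + 1) := h3.symm
        _ < y.h := hy1
        _ ≤ Real.exp r * z.h := height_ge hr hyz
        _ ≤ P.l * z.h := mul_le_mul_of_nonneg_right hexpr z.pos.le
    exact lt_of_mul_lt_mul_left h4 hl.le
  have hcl : |pl W z - pl W x| ≤ P.u m := by
    refine (pl_close hW0 hTr hxz).trans ?_
    rw [div_le_iff₀ hW0]
    have := P.u_pos m
    nlinarith
  obtain ⟨c, hc, hcz⟩ := hCs2 (P.lev z.h) hk1 hk2 (pl W z) hcl hzL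
  refine ⟨vz (W * c), Finset.mem_image.2 ⟨c, ?_, rfl⟩, ?_⟩
  · rcases (show P.lev z.h = n - 1 ∨ P.lev z.h = n ∨ P.lev z.h = n + 1 by omega) with h | h | h
    · rw [h] at hc
      exact Finset.mem_union_left _ (Finset.mem_union_left _ hc)
    · rw [h] at hc
      exact Finset.mem_union_left _ (Finset.mem_union_right _ hc)
    · rw [h] at hc
      exact Finset.mem_union_right _ hc
  · have h3 : ‖y.x - z.x‖ ≤ P.l * P.u n :=
      (horiz_le hr hyz).trans (mul_le_mul hexpr hy2 y.pos.le hl.le)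
    have h4 : ‖z.x - vz (W * c)‖ ≤ 3 * W * P.l * P.u n := by
      rw [norm_eq_cz, cz_sub, cz_vz]
      have h5 : cz z.x - W * c = W * (pl W z - c) := by
        unfold pl
        field_simp
      rw [h5, abs_mul, abs_of_pos hW0]
      have h6 : P.u (P.lev z.h) ≤ P.l * P.u n := by
        rw [← hun1]
        exact P.u_anti hk3
      calc W * |pl W z - c| ≤ W * (3 * (P.l * P.u n)) :=
            mul_le_mul_of_nonneg_left (by linarith) hW0.le
        _ = 3 * W * P.l * P.u n := by ring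
    calc ‖y.x - vz (W * c)‖ = ‖(y.x - z.x) + (z.x - vz (W * c))‖ := by rw [sub_add_sub_cancel]
      _ ≤ ‖y.x - z.x‖ + ‖z.x - vz (W * c)‖ := norm_add_le _ _
      _ ≤ P.l * P.u n + 3 * W * P.l * P.u n := add_le_add h3 h4
      _ = (3 * W * P.l + P.l) * P.u n := by ring

end Pool.Agent.Y970.AD
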